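import Pool.Agent.H70.GSC.CLG

/-!
# Theorem (G), MP_c59857_nt: the upper bound of the energy on the multiples of `q`, CLA
-/

set_option autoImplicit false

open Finset Pool.Agent.H6.N4D Pool.Agent.H93 Pool.Agent.H93.GS

namespace Pool.Agent.H70.GSC

/-! ## sizes -/

lemma sizes {w q : ℕ} (hw : 200 ≤ w) (hq : q ^ 100 ≤ 2 ^ w) : q ≤ 2 ^ (w / 50) := by
  have h1 : w < 100 * (w / 100 + 1) := by omega
  have h2 : q ^ 100 < (2 ^ (w / 100 + 1)) ^ 100 := by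
    rw [← pow_mul]
    exact lt_of_le_of_lt hq (Nat.pow_lt_pow_right (by norm_num) (by omega))
  have h3 : q < 2 ^ (w / 100 + 1) := lt_of_pow_lt_pow_left₀ 100 (Nat.zero_le _) h2
  exact h3.le.trans (Nat.pow_le_pow_right (by norm_num) (by omega))

lemma ind_nonneg (p : Prop) : 0 ≤ EB.ind p := by unfold EB.ind; split_ifs <;> norm_num

lemma ind_pos {p : Prop} (h : p) : EB.ind p = 1 := by unfold EB.ind; rw [if_pos h]

lemma rho {N : ℕ} (hN : 1 ≤ N) : 0 < (N : ℝ) ^ (-(1 / 2) : ℝ) ∧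
    ((N : ℝ) ^ (-(1 / 2) : ℝ)) ^ 2 = 1 / N ∧ (N : ℝ) ^ (-(1 / 2) : ℝ) ≤ 1 := by
  have h1 : (0 : ℝ) < N := by exact_mod_cast hN
  have h2 : (1 : ℝ) ≤ N := by exact_mod_cast hN
  refine ⟨Real.rpow_pos_of_pos h1 _, ?_, Real.rpow_le_one_of_one_le_of_nonpos h2 (by norm_num)⟩
  rw [← Real.rpow_natCast, ← Real.rpow_mul h1.le]
  rw [show (-(1 / 2) : ℝ) * ((2 : ℕ) : ℝ) = -1 by norm_num, Real.rpow_neg_one, one_div]

/-- CLA -/
theorem pf_CLA (hO : H6.GS2.T_OPD) (hB : H6.GS2.T_BNM) (hU : H6.GS2.T_UNQ)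
    (hE : H6.GS2.T_SEP) (hC : H6.GS2.T_CLU) (h1 : T_LFT) (h2 : T_CRL) (h3 : T_ZSH)
    (h4 : T_NRQ) (h5 : T_SPL) (h6 : T_LDG) (h7 : T_D2G) (h8 : T_FNL) : GS.T_CLA := by
  intro th hth hth1
  obtain ⟨κ', hκ, hκ2, hC⟩ := hC th (1 / 20) hth hth1 (by norm_num) (by norm_num)
  obtain ⟨K, hK, h7⟩ := h7
  obtain ⟨r₀, hr₀⟩ : ∃ r₀ : ℕ, r₀ = ⌊10 / th ^ 2⌋₊ := ⟨_, rfl⟩
  obtain ⟨Λ, hΛd⟩ : ∃ Λ : ℝ, Λ = 1 + 8 / (κ' * th) + K * (r₀ + 1) + 8 / th ^ 2 := ⟨_, rfl⟩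
  have p1 : 0 < 8 / (κ' * th) := by positivity
  have p2 : 0 < K * ((r₀ : ℝ) + 1) := by positivity
  have p3 : 0 < 8 / th ^ 2 := by positivity
  have hΛ : 1 ≤ Λ := by rw [hΛd]; linarith
  obtain ⟨P₁, L₁, κ₁, hP₁, hL₁, hκ₁, hκ₁', hC⟩ := hC Λ hΛ
  obtain ⟨P₂, C₂, κ₂, hP₂, hC₂, hκ₂, hκ₂', hE⟩ := hE th Λ hth hth1 hΛ
  obtain ⟨Cf, hCf, h8⟩ := h8 κ' (4 / th) r₀ hκ (by positivity)
  obtain ⟨j, hj⟩ := exists_pow_lt_of_lt_one (show (0 : ℝ) < th ^ 2 / 4 by positivity)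
    (show (1 / 2 : ℝ) < 1 by norm_num)
  refine ⟨(min κ₁ κ₂) ^ 2, κ' / 8, κ' / 160, Cf + 2 + 6 / th + 2 / th ^ 2, P₁ + P₂, r₀,
    200 + 2 * (L₁ + C₂ + P₁ + P₂ + ⌈K⌉₊ + j), by positivity, by positivity, by positivity,
    by positivity, ?_⟩
  intro lam w n g₀ hw hl hg₀
  obtain ⟨g, hg, hgD⟩ := hO th lam 1 (2 ^ w) n hth hl le_rfl Nat.one_le_two_pow
  have hlin : ∀ q, lin lam q (2 ^ w) n g₀ = lin lam q (2 ^ w) n g := by
    intro q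
    have e1 := hU th lam 1 (2 ^ w) n g₀ g le_rfl Nat.one_le_two_pow hg₀ hg
    unfold lin
    rw [H6.GS2.ar_congr q (2 ^ w) n (G := fun m => lam m * (g.f m).re)
      (fun m hm _ => by rw [e1 m hm (one_dvd _)]),
      H6.GS2.ar_congr 1 (2 ^ w) n (G := fun m => lam m * (g.f m).re)
      (fun m hm _ => by rw [e1 m hm (one_dvd _)])]
  -- the trivial bound
  have triv : ∀ q : ℕ, 1 ≤ q → q ≤ 2 ^ w → En th lam q (2 ^ w) n ≤ En th lam 1 (2 ^ w) n +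
      lin lam q (2 ^ w) n g + (2 + 6 / th) := by
    intro q hq hqN
    have e1 := (h3 lam q (2 ^ w) n hl hq hqN).2.2 g
    have e2 := nm_le hB hth hl le_rfl Nat.one_le_two_pow hg
    obtain ⟨h, hh, -⟩ := hO th lam q (2 ^ w) n hth hl hq Nat.one_le_two_pow
    have e3 := (hB th lam q (2 ^ w) n h hth hl hq Nat.one_le_two_pow hh).2.2.1
    have e4 := (hB th lam 1 (2 ^ w) n g hth hl le_rfl Nat.one_le_two_pow hg).2.1
    have e5 : (q : ℝ) / ((2 ^ w : ℕ) : ℝ) ≤ 1 := by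
      apply div_le_one_of_le₀ (by exact_mod_cast hqN) (Nat.cast_nonneg _)
    have e6 := (abs_le.1 e1).1
    have e7 : 6 * g.nm ≤ 6 / th := by
      calc _ ≤ 6 * (1 / th) := by gcongr
        _ = _ := by ring
    linarith
  have hp : 2 ^ (P₁ + P₂) * 2 ^ (w - (P₁ + P₂)) = 2 ^ w := by
    rw [← pow_add]; congr 1; omega
  have hPP₁ : P₁ ≤ 2 ^ (P₁ + P₂) :=
    (Nat.le_add_right P₁ P₂).trans Nat.lt_two_pow_self.le
  have hPP₂ : P₂ ≤ 2 ^ (P₁ + P₂) :=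
    (Nat.le_add_left P₂ P₁).trans Nat.lt_two_pow_self.le
  have hLL : L₁ ≤ 2 ^ (w - (P₁ + P₂)) :=
    Nat.lt_two_pow_self.le.trans (Nat.pow_le_pow_right (by norm_num) (by omega))
  have hm1 : (min κ₁ κ₂) ^ 2 ≤ κ₁ ^ 2 := by
    apply pow_le_pow_left₀ (by positivity) (min_le_left _ _)
  have hm2 : (min κ₁ κ₂) ^ 2 ≤ κ₂ ^ 2 := by
    apply pow_le_pow_left₀ (by positivity) (min_le_right _ _)
  have hKN : K ≤ ((2 ^ w : ℕ) : ℝ) := by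
    refine (Nat.le_ceil K).trans ?_
    exact_mod_cast Nat.lt_two_pow_self.le.trans
      (Nat.pow_le_pow_right (by norm_num) (by omega : ⌈K⌉₊ ≤ w))
  by_cases hgap : gap th lam (2 ^ (P₁ + P₂)) (2 ^ (w - (P₁ + P₂))) n ≤ (min κ₁ κ₂) ^ 2
  swap
  · refine ⟨fun _ => 0, fun q hq hq2 => ?_⟩
    rw [hlin]
    have hqN : q ≤ 2 ^ w := (Nat.le_self_pow (by norm_num) q).trans hq2
    refine (triv q hq.one_lt.le hqN).trans ?_
    push Not at hgap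
    rw [ind_pos hgap]
    have e1 := ind_nonneg ((min κ₁ κ₂) ^ 2 <
      gapq th lam q (2 ^ (P₁ + P₂)) (2 ^ (w - (P₁ + P₂))) n)
    have e2 := ind_nonneg (JF lam q (2 ^ w) n (th / 2) (κ' / 160) (κ' / 8))
    have e3 := ind_nonneg (Exc q (2 ^ w) r₀ fun _ => 0)
    have e4 : 0 ≤ ∑ i ∈ range r₀, zA lam q (2 ^ w) n ((fun _ => 0 : ℕ → ℝ) i) ^ 2 := by
      positivity
    have e5 : (0 : ℝ) ≤ (1 / 2) ^ (w / 4) := by positivity
    have e6 : 0 ≤ 2 / th ^ 2 := by positivity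
    have e7 : 0 ≤ 6 / th := by positivity
    have e8 : Cf + 2 + 6 / th + 2 / th ^ 2 ≤ (Cf + 2 + 6 / th + 2 / th ^ 2) *
        (∑ i ∈ range r₀, zA lam q (2 ^ w) n ((fun _ => 0 : ℕ → ℝ) i) ^ 2 + 1 +
          EB.ind ((min κ₁ κ₂) ^ 2 < gapq th lam q (2 ^ (P₁ + P₂)) (2 ^ (w - (P₁ + P₂))) n) +
          EB.ind (JF lam q (2 ^ w) n (th / 2) (κ' / 160) (κ' / 8)) +
          EB.ind (Exc q (2 ^ w) r₀ fun _ => 0) + (1 / 2) ^ (w / 4)) := by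
      apply le_mul_of_one_le_right (by positivity)
      linarith
    linarith
  · have hgapq : gapq th lam 1 (2 ^ (P₁ + P₂)) (2 ^ (w - (P₁ + P₂))) n ≤ κ₁ ^ 2 :=
      le_trans hgap hm1
    obtain ⟨r, γ, hr, hgk, hga, hsep, hnc⟩ := hC lam (2 ^ (P₁ + P₂)) (2 ^ (w - (P₁ + P₂))) n g
      hl hLL hPP₁ (by rw [hp]; exact hg) hgD hgapq
    rw [hp] at hsep hnc
    have hr' : r ≤ r₀ := by rw [hr₀]; exact Nat.le_floor hr
    refine ⟨γ, fun q hq hq2 => ?_⟩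
    rw [hlin]
    have hq1 : 1 ≤ q := hq.one_lt.le
    have hqN : q ≤ 2 ^ w := (Nat.le_self_pow (by norm_num) q).trans hq2
    obtain ⟨T, hT⟩ : ∃ T, T = ∑ i ∈ range r₀, zA lam q (2 ^ w) n (γ i) ^ 2 := ⟨_, rfl⟩
    obtain ⟨i1, hi1⟩ : ∃ i1, i1 = EB.ind ((min κ₁ κ₂) ^ 2 <
      gap th lam (2 ^ (P₁ + P₂)) (2 ^ (w - (P₁ + P₂))) n) := ⟨_, rfl⟩
    obtain ⟨i2, hi2⟩ : ∃ i2, i2 = EB.ind ((min κ₁ κ₂) ^ 2 <
      gapq th lam q (2 ^ (P₁ + P₂)) (2 ^ (w - (P₁ + P₂))) n) := ⟨_, rfl⟩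
    obtain ⟨i3, hi3⟩ : ∃ i3, i3 = EB.ind (JF lam q (2 ^ w) n (th / 2) (κ' / 160) (κ' / 8)) :=
      ⟨_, rfl⟩
    obtain ⟨i4, hi4⟩ : ∃ i4, i4 = EB.ind (Exc q (2 ^ w) r₀ γ) := ⟨_, rfl⟩
    have hT0 : 0 ≤ T := by rw [hT]; positivity
    have h10 : 0 ≤ i1 := by rw [hi1]; exact ind_nonneg _
    have h20 : 0 ≤ i2 := by rw [hi2]; exact ind_nonneg _
    have h30 : 0 ≤ i3 := by rw [hi3]; exact ind_nonneg _
    have h40 : 0 ≤ i4 := by rw [hi4]; exact ind_nonneg _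
    rw [← hT, ← hi1, ← hi2, ← hi3, ← hi4]
    have e5 : (0 : ℝ) ≤ (1 / 2) ^ (w / 4) := by positivity
    have e6 : 0 ≤ 2 / th ^ 2 := by positivity
    have e7 : 0 ≤ 6 / th := by positivity
    have bad : 1 ≤ i2 + i3 + i4 → En th lam q (2 ^ w) n ≤ En th lam 1 (2 ^ w) n +
        lin lam q (2 ^ w) n g + (Cf + 2 + 6 / th + 2 / th ^ 2) *
        (T + i1 + i2 + i3 + i4 + (1 / 2) ^ (w / 4)) := by
      intro hb
      have e8 : Cf + 2 + 6 / th + 2 / th ^ 2 ≤ (Cf + 2 + 6 / th + 2 / th ^ 2) *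
          (T + i1 + i2 + i3 + i4 + (1 / 2) ^ (w / 4)) := by
        apply le_mul_of_one_le_right (by positivity)
        linarith
      have := triv q hq1 hqN
      linarith
    by_cases b2 : (min κ₁ κ₂) ^ 2 < gapq th lam q (2 ^ (P₁ + P₂)) (2 ^ (w - (P₁ + P₂))) n
    · apply bad
      rw [hi2, ind_pos b2]; linarith
    by_cases b3 : JF lam q (2 ^ w) n (th / 2) (κ' / 160) (κ' / 8)
    · apply bad
      rw [hi3, ind_pos b3]; linarith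
    by_cases b4 : Exc q (2 ^ w) r₀ γ
    · apply bad
      rw [hi4, ind_pos b4]; linarith
    -- the regular case
    push Not at b2
    obtain ⟨h, hh, hhD⟩ := hO th lam q (2 ^ w) n hth hl hq1 Nat.one_le_two_pow
    have hq50 : q ≤ 2 ^ (w / 50) := sizes (by omega) hq2
    have hCq : C₂ * q ≤ 2 ^ (w - (P₁ + P₂)) := by
      calc C₂ * q ≤ 2 ^ C₂ * 2 ^ (w / 50) := Nat.mul_le_mul Nat.lt_two_pow_self.le hq50
        _ = 2 ^ (C₂ + w / 50) := by rw [pow_add]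
        _ ≤ _ := Nat.pow_le_pow_right (by norm_num) (by omega)
    have hhs := (hE lam q (2 ^ (P₁ + P₂)) (2 ^ (w - (P₁ + P₂))) n h hl hq1 hCq hPP₂
      (by rw [hp]; exact hh) hhD (b2.trans hm2)).1
    rw [hp] at hhs
    obtain ⟨ρ0, ρ2, ρ1⟩ := rho (N := 2 ^ w) Nat.one_le_two_pow
    obtain ⟨ρ, hρ⟩ : ∃ ρ, ρ = (((2 ^ w : ℕ) : ℝ)) ^ (-(1 / 2) : ℝ) := ⟨_, rfl⟩
    rw [← hρ] at ρ0 ρ2 ρ1
    have hN0 : (0 : ℝ) < ((2 ^ w : ℕ) : ℝ) := by positivity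
    have hqN2 : (q : ℝ) / ((2 ^ w : ℕ) : ℝ) ≤ th ^ 2 / 4 := by
      refine le_trans ?_ hj.le
      rw [div_le_iff₀ hN0]
      have e8 : (q : ℝ) ≤ 2 ^ (w / 50) := by exact_mod_cast hq50
      refine e8.trans ?_
      have e9 : ((2 ^ w : ℕ) : ℝ) = 2 ^ j * 2 ^ (w - j) := by
        push_cast
        rw [← pow_add]; congr 1; omega
      rw [e9, ← mul_assoc, ← mul_pow]
      norm_num
      exact pow_le_pow_right₀ (by norm_num) (by omega)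
    have hs : ((q : ℝ) / ((2 ^ w : ℕ) : ℝ) + 1 / Λ) / th ≤ th / 2 := by
      have e8 : 1 / Λ ≤ th ^ 2 / 8 := by
        rw [div_le_iff₀ (by linarith)]
        have e9 : 8 / th ^ 2 ≤ Λ := by rw [hΛd]; linarith
        calc (1 : ℝ) = th ^ 2 / 8 * (8 / th ^ 2) := by field_simp
          _ ≤ _ := by gcongr
      rw [div_le_iff₀ hth]
      nlinarith
    have hx : ∀ i < r, ∀ l < r, i ≠ l → ∀ e : ℤ, ¬ ((q : ℤ) ∣ e) →
        ρ / 2 + 1 / 10 / ((2 ^ w : ℕ) : ℝ) ≤ nd (γ i - γ l - (e : ℝ) / q) := by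
      intro i hi l hl' _ e he
      have e8 : ρ < nd (γ i - γ l - (e : ℝ) / q) := by
        by_contra hcon
        push Not at hcon
        apply b4
        refine ⟨i, by omega, l, by omega, e, he, ?_⟩
        rw [← hρ]; exact hcon
      have e9 : 1 / 10 / ((2 ^ w : ℕ) : ℝ) ≤ ρ / 2 := by
        rw [show (1 : ℝ) / 10 / ((2 ^ w : ℕ) : ℝ) = (1 / ((2 ^ w : ℕ) : ℝ)) / 10 by ring, ← ρ2]
        nlinarith
      linarith
    have hmain := good hB h1 h2 h3 h4 h5 h6 h7 h8 (Λ := Λ) (δ := κ' / 160) (c₁ := κ' / 8)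
      (η := ρ / 2) (r := r) (γ := γ) (g := g) (h := h) hth hκ (by positivity) (by positivity)
      hΛ (by rw [hΛd]; linarith) hKN (by
        have : (r : ℝ) ≤ r₀ := by exact_mod_cast hr'
        have : K * ((r : ℝ) + 1) ≤ K * (r₀ + 1) := by gcongr
        rw [hΛd]; linarith) hr' hl hq1 hqN hs hg hgk hga hsep hnc hh hhs b3
      (by linarith) hx
    have hTr : ∑ i ∈ range r, zA lam q (2 ^ w) n (γ i) ^ 2 ≤ T := by
      rw [hT]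
      exact sum_le_sum_of_subset_of_nonneg (range_mono hr') fun _ _ _ => by positivity
    have hsm : ((q : ℝ) / ((2 ^ w : ℕ) : ℝ) + q / (2 * ((2 ^ w : ℕ) : ℝ) * (ρ / 2))) ≤
        2 * (1 / 2) ^ (w / 4) := by
      have e8 : (q : ℝ) / (2 * ((2 ^ w : ℕ) : ℝ) * (ρ / 2)) = q * ρ := by
        have : ρ * ((2 ^ w : ℕ) : ℝ) * ρ = 1 := by
          calc _ = ρ ^ 2 * ((2 ^ w : ℕ) : ℝ) := by ring
            _ = 1 := by rw [ρ2]; field_simp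
        rw [div_eq_iff (by positivity)]
        calc (q : ℝ) = q * (ρ * ((2 ^ w : ℕ) : ℝ) * ρ) := by rw [this, mul_one]
          _ = _ := by ring
      have e9 : (q : ℝ) / ((2 ^ w : ℕ) : ℝ) ≤ q * ρ := by
        rw [show (q : ℝ) / ((2 ^ w : ℕ) : ℝ) = q * (1 / ((2 ^ w : ℕ) : ℝ)) by ring, ← ρ2]
        have : ρ ^ 2 ≤ ρ := by nlinarith
        gcongr
      have e10 : (q : ℝ) * ρ ≤ (1 / 2) ^ (w / 4) := by
        apply le_of_sq_le_sq' (by positivity)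
        rw [mul_pow, ρ2, ← pow_mul]
        have e11 : (q : ℝ) ^ 2 ≤ 2 ^ (w / 50 * 2) := by
          rw [pow_mul]
          have : (q : ℝ) ≤ 2 ^ (w / 50) := by exact_mod_cast hq50
          gcongr
        have e12 : ((2 ^ w : ℕ) : ℝ) = 2 ^ (w / 4 * 2) * 2 ^ (w - w / 4 * 2) := by
          push_cast
          rw [← pow_add]; congr 1; omega
        rw [mul_one_div, div_le_iff₀ hN0, e12, ← mul_assoc, ← mul_pow]
        norm_num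
        exact e11.trans (pow_le_pow_right₀ (by norm_num) (by omega))
      rw [e8]
      linarith
    have hsm2 : ((q : ℝ) / ((2 ^ w : ℕ) : ℝ) + q / (2 * ((2 ^ w : ℕ) : ℝ) * (ρ / 2))) *
        (1 / th) ^ 2 ≤ 2 / th ^ 2 * (1 / 2) ^ (w / 4) := by
      calc _ ≤ 2 * (1 / 2) ^ (w / 4) * (1 / th) ^ 2 := by gcongr
        _ = _ := by ring
    have hfin : Cf * T + 2 / th ^ 2 * (1 / 2) ^ (w / 4) ≤ (Cf + 2 + 6 / th + 2 / th ^ 2) *
        (T + i1 + i2 + i3 + i4 + (1 / 2) ^ (w / 4)) := by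
      have q1 : Cf * T ≤ (Cf + 2 + 6 / th + 2 / th ^ 2) * T := by gcongr; linarith
      have q2 : 2 / th ^ 2 * (1 / 2) ^ (w / 4) ≤ (Cf + 2 + 6 / th + 2 / th ^ 2) *
          (1 / 2 : ℝ) ^ (w / 4) := by gcongr; linarith
      have q3 : 0 ≤ (Cf + 2 + 6 / th + 2 / th ^ 2) * (i1 + i2 + i3 + i4) := by positivity
      nlinarith
    have hCT : Cf * ∑ i ∈ range r, zA lam q (2 ^ w) n (γ i) ^ 2 ≤ Cf * T := by gcongr
    linarith

end Pool.Agent.H70.GSC
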