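import Pool.Agent.H70.GSC.Targets
import Pool.Agent.H6.GS2.Bas

/-!
# Theorem (G), MP_c59857_nt: the upper bound of the energy on the multiples of `q`, one regular window
-/

set_option autoImplicit false

open Finset Pool.Agent.H6.N4D Pool.Agent.H93 Pool.Agent.H93.GS

namespace Pool.Agent.H70.GSC

lemma nm_le {th : ℝ} {lam : ℕ → ℝ} {q N n : ℕ} {g : Ex} (hB : H6.GS2.T_BNM) (hth : 0 < th)
    (hl : ∀ m, |lam m| ≤ 1) (hq : 1 ≤ q) (hqN : q ≤ N) (hg : Opt th lam q N n g) :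
    g.nm ≤ 1 / th := by
  have hN : 1 ≤ N := hq.trans hqN
  have h1 := (hB th lam q N n g hth hl hq hN hg).1
  have h2 : (q : ℝ) / N ≤ 1 := by
    apply div_le_one_of_le₀ (by exact_mod_cast hqN) (Nat.cast_nonneg _)
  rw [le_div_iff₀ hth]
  nlinarith

lemma slk_ge {th κ' : ℝ} {lam : ℕ → ℝ} {q N n : ℕ} {g : Ex} (hg : Opt th lam q N n g)
    (h : Ex) (S : Finset ℕ) (hS : S ⊆ range h.k)
    (hr : ∀ j ∈ S, ‖rs lam q N n g (h.a j)‖ ≤ th - κ') :
    2 * κ' * ∑ j ∈ S, ‖h.c j‖ ≤ H6.GS2.slk th lam q N n g h := by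
  unfold H6.GS2.slk
  have h1 : ∀ j, ((starRingEnd ℂ) (h.c j) * rs lam q N n g (h.a j)).re ≤
      ‖h.c j‖ * ‖rs lam q N n g (h.a j)‖ := by
    intro j
    have h1 := Complex.re_le_norm ((starRingEnd ℂ) (h.c j) * rs lam q N n g (h.a j))
    rwa [norm_mul, Complex.norm_conj] at h1
  have h2 : ∑ j ∈ S, κ' * ‖h.c j‖ ≤ ∑ j ∈ range h.k, (th * ‖h.c j‖ -
      ((starRingEnd ℂ) (h.c j) * rs lam q N n g (h.a j)).re) := by
    refine le_trans (sum_le_sum (g := fun j => th * ‖h.c j‖ -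
      ((starRingEnd ℂ) (h.c j) * rs lam q N n g (h.a j)).re) fun j hj => ?_)
      (sum_le_sum_of_subset_of_nonneg hS fun j _ _ => ?_)
    · have h3 := mul_le_mul_of_nonneg_left (hr j hj) (norm_nonneg (h.c j))
      have h4 := h1 j
      show κ' * ‖h.c j‖ ≤ th * ‖h.c j‖ -
        ((starRingEnd ℂ) (h.c j) * rs lam q N n g (h.a j)).re
      nlinarith
    · have h3 := mul_le_mul_of_nonneg_left (hg.df (h.a j)) (norm_nonneg (h.c j))
      have h4 := h1 j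
      nlinarith
  rw [← mul_sum] at h2
  linarith

lemma sum_ext {g : Ex} {r : ℕ} {γ : ℕ → ℝ} (hgk : g.k ≤ r) (hga : ∀ i < g.k, γ i = g.a i)
    (m : ℕ) : g.f m = ∑ i ∈ range r, (if i < g.k then g.c i else 0) * ee (γ i * m) := by
  unfold Ex.f
  have h1 : ∑ i ∈ range r, (if i < g.k then g.c i else 0) * ee (γ i * m) =
      ∑ i ∈ range g.k, (if i < g.k then g.c i else 0) * ee (γ i * m) := by
    symm
    apply sum_subset (range_mono hgk)
    intro i _ h2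
    rw [mem_range] at h2
    rw [if_neg h2, zero_mul]
  rw [h1]
  apply sum_congr rfl
  intro i hi
  rw [mem_range] at hi
  rw [if_pos hi, hga i hi]

lemma le_of_sq_le_sq' {a b : ℝ} (hb : 0 ≤ b) (h : a ^ 2 ≤ b ^ 2) : a ≤ b :=
  (abs_le_of_sq_le_sq' h hb).2

/-- a regular window and prime -/
lemma good (hB : H6.GS2.T_BNM) (h1 : T_LFT) (h2 : T_CRL) (h3 : T_ZSH) (h4 : T_NRQ)
    (h5 : T_SPL) (h6 : T_LDG) {K : ℝ}
    (h7 : ∀ (N n r : ℕ) (S : Finset ℕ) (c C G : ℕ → ℂ)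
      (b γ s : ℕ → ℝ) (Λ : ℝ) (h g : Ex), 1 ≤ N → K ≤ N → K * (r + 1) ≤ Λ →
      (∀ i < r, |s i| ≤ 1 / 10) → (∀ i < r, ∀ l < r, i ≠ l → Λ / N ≤ nd (γ i - γ l)) →
      (∀ m : ℕ, h.f m = sg S c b r C (fun i => γ i + s i / N) m) →
      (∀ m : ℕ, g.f m = ∑ i ∈ range r, G i * ee (γ i * m)) →
        (∑ i ∈ range r, gz N n (C i) (G i) (s i) ^ 2) / 32 - (∑ j ∈ S, ‖c j‖) ^ 2 ≤
          d2 1 N n h g)
    {th κ' Cf : ℝ} {r₀ : ℕ} (h8 : ∀ (r : ℕ) (σ D : ℝ) (B T : ℕ → ℝ), r ≤ r₀ → 0 ≤ σ → 0 ≤ D →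
      (∀ i < r, 0 ≤ B i ∧ B i ≤ 4 / th ∧ 0 ≤ T i) →
      (∑ i ∈ range r, B i ^ 2) / 32 - σ ^ 2 ≤ D →
        14 * ∑ i ∈ range r, B i * T i - D - 5 / 4 * κ' * σ ≤ Cf * ∑ i ∈ range r, T i ^ 2)
    {Λ δ c₁ η : ℝ} {lam : ℕ → ℝ} {q N n r : ℕ} {γ : ℕ → ℝ} {g h : Ex}
    (hth : 0 < th) (hκ : 0 < κ') (hδ : 0 ≤ δ) (hη : 0 < η) (hΛ : 1 ≤ Λ)
    (hΛ2 : 8 / (κ' * th) ≤ Λ) (hKN : K ≤ N) (hKr : K * (r + 1) ≤ Λ) (hr : r ≤ r₀)
    (hl : ∀ m, |lam m| ≤ 1) (hq : 1 ≤ q) (hqN : q ≤ N)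
    (hs : ((q : ℝ) / N + 1 / Λ) / th ≤ th / 2)
    (hg : Opt th lam 1 N n g) (hgk : g.k ≤ r) (hga : ∀ i < g.k, γ i = g.a i)
    (hsep : ∀ i < r, ∀ l < r, i ≠ l → Λ / N ≤ nd (γ i - γ l))
    (hnc : ∀ β : ℝ, th - κ' ≤ ‖rs lam 1 N n g β‖ → ∃ i < r, nd (β - γ i) ≤ 1 / 20 / N)
    (hh : Opt th lam q N n h)
    (hhs : ∀ i < h.k, ∀ l < h.k, i ≠ l → Λ * q / N ≤ nd (q * (h.a i - h.a l)))
    (hJ : ¬ JF lam q N n (th / 2) δ c₁) (hc : c₁ + 20 * δ ≤ κ' / 4)
    (hx : ∀ i < r, ∀ l < r, i ≠ l → ∀ e : ℤ, ¬ ((q : ℤ) ∣ e) →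
      η + 1 / 10 / N ≤ nd (γ i - γ l - (e : ℝ) / q)) :
    En th lam q N n ≤ En th lam 1 N n + lin lam q N n g +
      Cf * ∑ i ∈ range r, zA lam q N n (γ i) ^ 2 +
      (q / N + q / (2 * N * η)) * (1 / th) ^ 2 := by
  have hN : 1 ≤ N := hq.trans hqN
  have hN' : (0 : ℝ) < N := by exact_mod_cast hN
  have hq' : (0 : ℝ) < q := by exact_mod_cast hq
  have hΛ0 : 0 < Λ := by linarith
  have hnh : h.nm ≤ 1 / th := nm_le hB hth hl hq hqN hh
  have hng : g.nm ≤ 1 / th := nm_le hB hth hl le_rfl hN hg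
  obtain ⟨z1, z2, -⟩ := h3 lam q N n hl hq hqN
  -- lifts
  have hL : ∀ j : ℕ, ∃ b : ℤ, j < h.k →
      EB.zz lam q N n (h.a j + b / q) (fun _ => 1) ≤ κ' / 4 := by
    intro j
    by_cases hj : j < h.k
    · have e1 := h2 th Λ lam q N n h hth hΛ0 hq hqN hh hhs j hj
      have e2 : th / 2 ≤ ‖EB.crq lam q N n (h.a j)‖ := by
        have : ((q : ℝ) / N + 1 / Λ) * h.nm ≤ th / 2 := by
          calc _ ≤ ((q : ℝ) / N + 1 / Λ) * (1 / th) := by gcongr
            _ = ((q : ℝ) / N + 1 / Λ) / th := by ring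
            _ ≤ _ := hs
        linarith
      unfold JF at hJ
      push Not at hJ
      obtain ⟨α, ⟨b, hb⟩, hz⟩ := hJ (h.a j) e2
      refine ⟨b, fun _ => ?_⟩
      have e3 : nd (α - (h.a j + b / q)) ≤ δ / N := by
        rw [show α - (h.a j + b / q) = α - h.a j - b / q by ring]; exact hb
      have := z1 α (h.a j + b / q) δ hδ e3
      linarith
    · exact ⟨0, fun h => absurd h hj⟩
  choose b hb using hL
  have hen := h1 th lam q N n g h b hq hg hh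
  obtain ⟨ht, hht⟩ : ∃ ht : Ex, ht = ⟨h.k, h.c, fun j => h.a j + b j / q⟩ := ⟨_, rfl⟩
  rw [← hht] at hen
  have hk : ht.k = h.k := by rw [hht]
  have hcc : ht.c = h.c := by rw [hht]
  have haa : ∀ j, ht.a j = h.a j + b j / q := by intro j; rw [hht]
  have hnt : ∑ j ∈ range ht.k, ‖ht.c j‖ ≤ 1 / th := by
    rw [hk, hcc]; exact hnh
  -- splitting
  have hhs' : ∀ j < ht.k, ∀ l < ht.k, j ≠ l → Λ * q / N ≤ nd (q * (ht.a j - ht.a l)) := by
    intro j hj l hl hne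
    have e1 : (q : ℝ) * (ht.a j - ht.a l) = q * (h.a j - h.a l) + ((b j - b l : ℤ) : ℝ) := by
      rw [haa, haa]
      push_cast
      field_simp
      ring
    rw [e1, nd_add_int]
    rw [hk] at hj hl
    exact hhs j hj l hl hne
  obtain ⟨S, C, s, hS, hSn, hsd, hf, hnm, hCs⟩ := h5 ht.k ht.c ht.a r γ N q (1 / 20) Λ hN hq
    (by norm_num) (by linarith) hhs'
  have hf' : ∀ m : ℕ, ht.f m = sg S ht.c ht.a r C (fun i => γ i + s i / N) m := hf
  obtain ⟨G, hG⟩ : ∃ G : ℕ → ℂ, G = fun i => if i < g.k then g.c i else 0 := ⟨_, rfl⟩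
  have hgf : ∀ m : ℕ, g.f m = ∑ i ∈ range r, G i * ee (γ i * m) := by
    intro m; rw [hG]; exact sum_ext hgk hga m
  obtain ⟨σ, hσ⟩ : ∃ σ, σ = ∑ j ∈ S, ‖ht.c j‖ := ⟨_, rfl⟩
  obtain ⟨τ, hτ⟩ : ∃ τ, τ = ∑ i ∈ range r, ‖C i‖ := ⟨_, rfl⟩
  have hσ0 : 0 ≤ σ := by rw [hσ]; positivity
  have hτ0 : 0 ≤ τ := by rw [hτ]; positivity
  rw [← hσ, ← hτ] at hnm
  have hστ : σ + τ ≤ 1 / th := hnm.trans hnt
  -- the distance
  have eD := h7 N n r S ht.c C G ht.a γ s Λ ht g hN hKN hKr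
    (fun i hi => (hsd i hi).trans (by norm_num)) hsep hf' hgf
  rw [← hσ] at eD
  have hD0 : 0 ≤ d2 1 N n ht g := H6.GS2.ar_nonneg _ _ _ fun m => by positivity
  -- the linear term
  have eL := h6 lam q N n r S ht.c C G ht.a γ s ht g hl hq hqN hf' hgf
  have eL2 : ∑ j ∈ S, ‖ht.c j‖ * EB.zz lam q N n (ht.a j) (fun _ => 1) ≤ κ' / 4 * σ := by
    rw [hσ, mul_sum]
    apply sum_le_sum
    intro j hj
    have hj' : j < h.k := by have := mem_range.1 (hS hj); rwa [hk] at this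
    have := hb j hj'
    rw [haa]
    calc _ ≤ ‖ht.c j‖ * (κ' / 4) := by gcongr
      _ = _ := by ring
  -- the mean squares
  have eN := h4 q N n r S ht.c C ht.a (fun i => γ i + s i / N) Λ η hq hqN hΛ0 hη
    (fun j hj l hl' hne => hhs' j (mem_range.1 (hS hj)) l (mem_range.1 (hS hl')) hne)
    hCs (by
      intro i hi l hl' hne e he
      have e1 := hx i hi l hl' hne e he
      have e2 : nd (γ i - γ l - (e : ℝ) / q) ≤
          nd (γ i + s i / N - (γ l + s l / N) - (e : ℝ) / q) + nd (s i / N - s l / N) := by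
        have := nd_sub_le (γ i + s i / N - (γ l + s l / N) - (e : ℝ) / q) (s i / N - s l / N)
        rwa [show γ i + s i / N - (γ l + s l / N) - (e : ℝ) / q - (s i / N - s l / N) =
          γ i - γ l - (e : ℝ) / q by ring] at this
      have e3 : nd (s i / N - s l / N) ≤ 1 / 10 / N := by
        refine (nd_le_abs _).trans ?_
        rw [← sub_div, abs_div, abs_of_pos hN']
        have := abs_sub (s i) (s l)
        have := hsd i hi
        have := hsd l hl'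
        gcongr
        linarith
      show η ≤ nd (γ i + s i / N - (γ l + s l / N) - (e : ℝ) / q)
      linarith)
  have eN' : |nrm q N n ht| ≤ κ' / 4 * σ + (q / N + q / (2 * N * η)) * (1 / th) ^ 2 := by
    have e1 : nrm q N n ht = ar q N n (fun m => ‖sg S ht.c ht.a r C
        (fun i => γ i + s i / N) m‖ ^ 2) - ar 1 N n (fun m => ‖sg S ht.c ht.a r C
        (fun i => γ i + s i / N) m‖ ^ 2) := by
      unfold nrm
      simp only [hf']
    rw [e1]
    refine eN.trans ?_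
    rw [← hσ, ← hτ]
    have e2 : 2 * σ * (σ + τ) / Λ ≤ κ' / 4 * σ := by
      have e3 : 8 ≤ Λ * (κ' * th) := by
        rwa [div_le_iff₀ (by positivity)] at hΛ2
      have e4 : (σ + τ) * th ≤ 1 := by
        rwa [le_div_iff₀ hth] at hστ
      rw [div_le_iff₀ hΛ0]
      have e5 : 2 * (σ + τ) ≤ κ' / 4 * Λ := by
        by_contra hcon
        push Not at hcon
        have : κ' / 4 * Λ * th < 2 * (σ + τ) * th := by gcongr
        nlinarith
      nlinarith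
    have e3 : (q / N + q / (2 * N * η)) * (σ + τ) ^ 2 ≤
        (q / N + q / (2 * N * η)) * (1 / th) ^ 2 := by
      have : (σ + τ) ^ 2 ≤ (1 / th) ^ 2 := by
        apply pow_le_pow_left₀ (by positivity) hστ
      gcongr
    linarith
  -- the slack
  have eS : 2 * κ' * σ ≤ H6.GS2.slk th lam 1 N n g ht := by
    rw [hσ]
    apply slk_ge hg ht S hS
    intro j hj
    by_contra hcon
    push Not at hcon
    obtain ⟨i, hi, hni⟩ := hnc (ht.a j) hcon.le
    have := hSn j hj i hi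
    linarith
  -- the final inequality
  have eF := h8 r σ (d2 1 N n ht g) (fun i => gz N n (C i) (G i) (s i))
    (fun i => zA lam q N n (γ i)) hr hσ0 hD0 (by
      intro i hi
      have e1 : 0 ≤ gz N n (C i) (G i) (s i) := by unfold gz; positivity
      refine ⟨e1, ?_, z2 _⟩
      have e2 : ‖C i‖ ≤ 1 / th := by
        have : ‖C i‖ ≤ τ := by
          rw [hτ]
          exact single_le_sum (f := fun i => ‖C i‖) (fun _ _ => norm_nonneg _)
            (mem_range.2 hi)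
        linarith
      have e3 : ‖G i‖ ≤ 1 / th := by
        rw [hG]
        show ‖(if i < g.k then g.c i else 0 : ℂ)‖ ≤ 1 / th
        split_ifs with hi'
        · refine le_trans ?_ hng
          exact single_le_sum (f := fun i => ‖g.c i‖) (fun _ _ => norm_nonneg _)
            (mem_range.2 hi')
        · rw [norm_zero]; positivity
      have e4 : ‖H6.GS2.ctr N n (C i) (s i) - G i‖ ≤ ‖C i‖ + ‖G i‖ := by
        refine (norm_sub_le _ _).trans ?_
        unfold H6.GS2.ctr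
        rw [norm_mul, norm_ee, mul_one]
      have e5 : ‖C i‖ * |s i| ≤ ‖C i‖ * 1 := by
        gcongr
        exact (hsd i hi).trans (by norm_num)
      show gz N n (C i) (G i) (s i) ≤ 4 / th
      unfold gz
      have e6 : (4 : ℝ) / th = 4 * (1 / th) := by ring
      have e7 : 0 ≤ 1 / th := by positivity
      linarith) eD
  have e9 := abs_le.1 eL
  have e10 := abs_le.1 eN'
  rw [hen]
  linarith [e9.1, e9.2, e10.1, e10.2]

end Pool.Agent.H70.GSC
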