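import Pool.Agent.H6.GS2.Targets

/-!
# Theorem (G), MP_c59857_nt: sub-targets of CLA

The upper bound of the energy on the multiples of `q` on a regular window.
-/

set_option autoImplicit false

open Finset Pool.Agent.H6.N4D Pool.Agent.H93 Pool.Agent.H93.GS

namespace Pool.Agent.H70.GSC

/-- a sum of separated exponentials and of exponentials in given groups -/
noncomputable def sg (S : Finset ℕ) (c : ℕ → ℂ) (b : ℕ → ℝ) (r : ℕ) (C : ℕ → ℂ) (y : ℕ → ℝ)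
    (m : ℕ) : ℂ :=
  ∑ j ∈ S, c j * ee (b j * m) + ∑ i ∈ range r, C i * ee (y i * m)

/-- the size of the group `C e((γ + s / N) m) - G e(γ m)` -/
noncomputable def gz (N n : ℕ) (C G : ℂ) (s : ℝ) : ℝ := ‖H6.GS2.ctr N n C s - G‖ + ‖C‖ * |s|

/-- NRQ. The mean square on the multiples of `q` and on the window. -/
def T_NRQ : Prop := ∀ (q N n r : ℕ) (S : Finset ℕ) (c C : ℕ → ℂ) (b y : ℕ → ℝ) (Λ η : ℝ),
  1 ≤ q → q ≤ N → 0 < Λ → 0 < η →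
  (∀ j ∈ S, ∀ l ∈ S, j ≠ l → Λ * q / N ≤ nd (q * (b j - b l))) →
  (∀ j ∈ S, ∀ i < r, C i ≠ 0 → Λ * q / N ≤ nd (q * (b j - y i))) →
  (∀ i < r, ∀ l < r, i ≠ l → ∀ e : ℤ, ¬ ((q : ℤ) ∣ e) → η ≤ nd (y i - y l - (e : ℝ) / q)) →
    |ar q N n (fun m => ‖sg S c b r C y m‖ ^ 2) - ar 1 N n (fun m => ‖sg S c b r C y m‖ ^ 2)| ≤
      2 * (∑ j ∈ S, ‖c j‖) * (∑ j ∈ S, ‖c j‖ + ∑ i ∈ range r, ‖C i‖) / Λ +
        (q / N + q / (2 * N * η)) * (∑ j ∈ S, ‖c j‖ + ∑ i ∈ range r, ‖C i‖) ^ 2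

/-- SPL. Separated frequencies: those near the points `γ i` and the others. -/
def T_SPL : Prop := ∀ (k : ℕ) (c : ℕ → ℂ) (b : ℕ → ℝ) (r : ℕ) (γ : ℕ → ℝ) (N q : ℕ) (d Λ : ℝ),
  1 ≤ N → 1 ≤ q → 0 ≤ d → 2 * d < Λ →
  (∀ j < k, ∀ l < k, j ≠ l → Λ * q / N ≤ nd (q * (b j - b l))) →
  ∃ (S : Finset ℕ) (C : ℕ → ℂ) (s : ℕ → ℝ), S ⊆ range k ∧
    (∀ j ∈ S, ∀ i < r, d / N < nd (b j - γ i)) ∧ (∀ i < r, |s i| ≤ d) ∧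
    (∀ m : ℕ, ∑ j ∈ range k, c j * ee (b j * m) = sg S c b r C (fun i => γ i + s i / N) m) ∧
    ∑ j ∈ S, ‖c j‖ + ∑ i ∈ range r, ‖C i‖ ≤ ∑ j ∈ range k, ‖c j‖ ∧
    ∀ j ∈ S, ∀ i < r, C i ≠ 0 → Λ * q / N ≤ nd (q * (b j - (γ i + s i / N)))

/-- CRL. The correlation at the frequencies of an optimal sum. -/
def T_CRL : Prop := ∀ (th Λ : ℝ) (lam : ℕ → ℝ) (q N n : ℕ) (h : Ex), 0 < th → 0 < Λ →
  1 ≤ q → q ≤ N → Opt th lam q N n h →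
  (∀ i < h.k, ∀ j < h.k, i ≠ j → Λ * q / N ≤ nd (q * (h.a i - h.a j))) →
    ∀ j < h.k, th - (q / N + 1 / Λ) * h.nm ≤ ‖EB.crq lam q N n (h.a j)‖

/-- LDG. The difference of two linear terms. -/
def T_LDG : Prop := ∀ (lam : ℕ → ℝ) (q N n r : ℕ) (S : Finset ℕ) (c C G : ℕ → ℂ)
  (b γ s : ℕ → ℝ) (h g : Ex), (∀ m, |lam m| ≤ 1) → 1 ≤ q → q ≤ N →
  (∀ m : ℕ, h.f m = sg S c b r C (fun i => γ i + s i / N) m) →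
  (∀ m : ℕ, g.f m = ∑ i ∈ range r, G i * ee (γ i * m)) →
    |lin lam q N n h - lin lam q N n g| ≤
      2 * ∑ j ∈ S, ‖c j‖ * EB.zz lam q N n (b j) (fun _ => 1) +
        14 * ∑ i ∈ range r, gz N n (C i) (G i) (s i) * zA lam q N n (γ i)

/-- D2G. The distance of two sums. -/
def T_D2G : Prop := ∃ K : ℝ, 0 < K ∧ ∀ (N n r : ℕ) (S : Finset ℕ) (c C G : ℕ → ℂ)
  (b γ s : ℕ → ℝ) (Λ : ℝ) (h g : Ex), 1 ≤ N → K ≤ N → K * (r + 1) ≤ Λ →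
  (∀ i < r, |s i| ≤ 1 / 10) → (∀ i < r, ∀ l < r, i ≠ l → Λ / N ≤ nd (γ i - γ l)) →
  (∀ m : ℕ, h.f m = sg S c b r C (fun i => γ i + s i / N) m) →
  (∀ m : ℕ, g.f m = ∑ i ∈ range r, G i * ee (γ i * m)) →
    (∑ i ∈ range r, gz N n (C i) (G i) (s i) ^ 2) / 32 - (∑ j ∈ S, ‖c j‖) ^ 2 ≤ d2 1 N n h g

/-- ZSH. Tests at neighbouring frequencies; sizes. -/
def T_ZSH : Prop := ∀ (lam : ℕ → ℝ) (q N n : ℕ), (∀ m, |lam m| ≤ 1) → 1 ≤ q → q ≤ N →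
  (∀ α β δ : ℝ, 0 ≤ δ → nd (α - β) ≤ δ / N →
    EB.zz lam q N n β (fun _ => 1) ≤ EB.zz lam q N n α (fun _ => 1) + 20 * δ) ∧
  (∀ γ : ℝ, 0 ≤ zA lam q N n γ) ∧
  ∀ g : Ex, |lin lam q N n g| ≤ 6 * g.nm

/-- FNL. The final inequality. -/
def T_FNL : Prop := ∀ (κ' Bm : ℝ) (r₀ : ℕ), 0 < κ' → 0 ≤ Bm → ∃ C : ℝ, 0 < C ∧
  ∀ (r : ℕ) (σ D : ℝ) (B T : ℕ → ℝ), r ≤ r₀ → 0 ≤ σ → 0 ≤ D →
    (∀ i < r, 0 ≤ B i ∧ B i ≤ Bm ∧ 0 ≤ T i) →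
    (∑ i ∈ range r, B i ^ 2) / 32 - σ ^ 2 ≤ D →
      14 * ∑ i ∈ range r, B i * T i - D - 5 / 4 * κ' * σ ≤ C * ∑ i ∈ range r, T i ^ 2

/-- LFT. Moving the frequencies of an optimal sum by multiples of `1 / q`: the energy on the
multiples of `q` in terms of the optimal sum of the window. -/
def T_LFT : Prop := ∀ (th : ℝ) (lam : ℕ → ℝ) (q N n : ℕ) (g h : Ex) (b : ℕ → ℤ), 1 ≤ q →
  Opt th lam 1 N n g → Opt th lam q N n h →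
  En th lam q N n = En th lam 1 N n + lin lam q N n ⟨h.k, h.c, fun j => h.a j + b j / q⟩ -
    nrm q N n ⟨h.k, h.c, fun j => h.a j + b j / q⟩ -
    d2 1 N n ⟨h.k, h.c, fun j => h.a j + b j / q⟩ g -
    H6.GS2.slk th lam 1 N n g ⟨h.k, h.c, fun j => h.a j + b j / q⟩

end Pool.Agent.H70.GSC
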